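import Pool.Agent.W206.ND.Stm

set_option autoImplicit false

namespace Pool.Agent.W834.ND.MN

open Pool.Agent.W206.ND

noncomputable def aa (t : ℤ) : ℂ := 2 * Real.pi * Complex.I * t

noncomputable def g (t : ℤ) (z : ℝ) : ℂ := Complex.exp (-(aa t * z))

noncomputable def H (t : ℤ) (z : ℝ) : ℂ := (1 - g t z) / aa t

lemma ee_eq (t : ℤ) (z : ℝ) : ee (-(t * z)) = g t z := by
  unfold ee g aa
  congr 1
  push_cast
  ring

lemma norm_g (t : ℤ) (z : ℝ) : ‖g t z‖ = 1 := by
  unfold g aa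
  have : -(2 * (Real.pi : ℂ) * Complex.I * t * z) =
      ((-(2 * Real.pi * t * z) : ℝ) : ℂ) * Complex.I := by push_cast; ring
  rw [this, Complex.norm_exp_ofReal_mul_I]

lemma aa_ne {t : ℤ} (ht : t ≠ 0) : aa t ≠ 0 := by
  unfold aa
  have : (t : ℂ) ≠ 0 := by exact_mod_cast ht
  simp [Real.pi_ne_zero, ht]

lemma hasDeriv_g (t : ℤ) (z : ℝ) : HasDerivAt (g t) (-(aa t) * g t z) z := by
  unfold g
  have h0 : HasDerivAt (fun y : ℝ => (y : ℂ)) 1 z := by
    simpa using (hasDerivAt_id z).ofReal_comp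
  have h1 : HasDerivAt (fun y : ℝ => -(aa t * (y : ℂ))) (-(aa t * 1)) z :=
    (h0.const_mul (aa t)).neg
  have h2 := h1.cexp
  convert h2 using 1
  ring

lemma hasDeriv_H {t : ℤ} (ht : t ≠ 0) (z : ℝ) : HasDerivAt (H t) (g t z) z := by
  unfold H
  have h := ((hasDeriv_g t z).const_sub (1 : ℂ)).div_const (aa t)
  have e : -(-(aa t) * g t z) / aa t = g t z := by
    rw [neg_mul, neg_neg, mul_div_cancel_left₀ _ (aa_ne ht)]
  rw [e] at h
  exact h

lemma g_lip (t : ℤ) (x y : ℝ) : ‖g t y - g t x‖ ≤ ‖aa t‖ * |y - x| := by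
  have := Convex.norm_image_sub_le_of_norm_hasDerivWithin_le (f := g t)
    (f' := fun z => -(aa t) * g t z) (C := ‖aa t‖) (s := Set.univ) (x := x) (y := y)
    (fun z _ => (hasDeriv_g t z).hasDerivWithinAt)
    (fun z _ => by rw [norm_mul, norm_neg, norm_g, mul_one]) convex_univ
    (Set.mem_univ _) (Set.mem_univ _)
  simpa [Real.norm_eq_abs] using this

lemma H_lip {t : ℤ} (ht : t ≠ 0) (x y : ℝ) : ‖H t y - H t x‖ ≤ |y - x| := by
  have := Convex.norm_image_sub_le_of_norm_hasDerivWithin_le (f := H t)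
    (f' := fun z => g t z) (C := 1) (s := Set.univ) (x := x) (y := y)
    (fun z _ => (hasDeriv_H ht z).hasDerivWithinAt)
    (fun z _ => by rw [norm_g]) convex_univ
    (Set.mem_univ _) (Set.mem_univ _)
  simpa [Real.norm_eq_abs] using this

lemma step {t : ℤ} (ht : t ≠ 0) (x h : ℝ) (hh : 0 ≤ h) :
    ‖(H t (x + h) - H t x) - h * g t x‖ ≤ ‖aa t‖ * h * h := by
  have hd : ∀ s : ℝ, HasDerivAt (fun s : ℝ => H t (x + s) - (s : ℂ) * g t x)
      (g t (x + s) - g t x) s := by
    intro s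
    have h1 : HasDerivAt (fun s : ℝ => H t (x + s)) (g t (x + s)) s := by
      exact HasDerivAt.comp_const_add x s (hasDeriv_H ht (x + s))
    have h0 : HasDerivAt (fun y : ℝ => (y : ℂ)) 1 s := by
      simpa using (hasDerivAt_id s).ofReal_comp
    have h2 : HasDerivAt (fun y : ℝ => (y : ℂ) * g t x) (g t x) s := by
      have := h0.mul_const (g t x)
      rwa [one_mul] at this
    exact h1.sub h2
  have := Convex.norm_image_sub_le_of_norm_hasDerivWithin_le
    (f := fun s : ℝ => H t (x + s) - (s : ℂ) * g t x)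
    (f' := fun s => g t (x + s) - g t x) (C := ‖aa t‖ * h) (s := Set.Icc 0 h) (x := 0) (y := h)
    (fun z _ => (hd z).hasDerivWithinAt)
    (fun z hz => by
      refine (g_lip t x (x + z)).trans ?_
      have : |x + z - x| = z := by rw [add_sub_cancel_left]; exact abs_of_nonneg hz.1
      rw [this]
      exact mul_le_mul_of_nonneg_left hz.2 (norm_nonneg _)) (convex_Icc 0 h)
    (Set.left_mem_Icc.2 hh) (Set.right_mem_Icc.2 hh)
  have e : (H t (x + h) - (h : ℂ) * g t x) - (H t (x + 0) - ((0 : ℝ) : ℂ) * g t x) =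
      (H t (x + h) - H t x) - h * g t x := by
    simp only [add_zero, Complex.ofReal_zero, zero_mul, sub_zero]; ring
  rw [e] at this
  rw [Real.norm_eq_abs, sub_zero, abs_of_nonneg hh] at this
  exact this

lemma riemann {t : ℤ} (ht : t ≠ 0) (v : ℕ) (hv : 1 ≤ v) (z₀ : ℝ) (m : ℕ) :
    ‖∑ k ∈ Finset.range m, g t (z₀ + k / v) - v * (H t (z₀ + m / v) - H t z₀)‖ ≤
      ‖aa t‖ * (m / v) := by
  have hv' : (0 : ℝ) < v := by exact_mod_cast hv
  have hvc : (v : ℂ) ≠ 0 := by exact_mod_cast hv'.ne'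
  induction m with
  | zero => simp
  | succ m ih =>
    rw [Finset.sum_range_succ]
    have hs := step ht (z₀ + m / v) (1 / v) (by positivity)
    have e1 : z₀ + (m : ℝ) / v + 1 / v = z₀ + ((m + 1 : ℕ) : ℝ) / v := by
      push_cast; ring
    rw [e1] at hs
    have e2 : (∑ k ∈ Finset.range m, g t (z₀ + k / v) + g t (z₀ + m / v)) -
        v * (H t (z₀ + ((m + 1 : ℕ) : ℝ) / v) - H t z₀) =
        (∑ k ∈ Finset.range m, g t (z₀ + k / v) - v * (H t (z₀ + m / v) - H t z₀)) -
        v * ((H t (z₀ + ((m + 1 : ℕ) : ℝ) / v) - H t (z₀ + m / v)) -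
          ((1 / v : ℝ) : ℂ) * g t (z₀ + m / v)) := by
      have : (v : ℂ) * (((1 / v : ℝ) : ℂ) * g t (z₀ + m / v)) = g t (z₀ + m / v) := by
        push_cast; field_simp
      linear_combination (-1 : ℂ) * this
    rw [e2]
    refine (norm_sub_le _ _).trans ?_
    rw [norm_mul]
    have hvn : ‖(v : ℂ)‖ = v := by simp
    rw [hvn]
    have h3 : (v : ℝ) * ‖(H t (z₀ + ((m + 1 : ℕ) : ℝ) / v) - H t (z₀ + m / v)) -
          ((1 / v : ℝ) : ℂ) * g t (z₀ + m / v)‖ ≤ ‖aa t‖ * (1 / v) := by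
      refine (mul_le_mul_of_nonneg_left hs hv'.le).trans (le_of_eq ?_)
      field_simp
    have e4 : ‖aa t‖ * (((m + 1 : ℕ) : ℝ) / v) = ‖aa t‖ * (m / v) + ‖aa t‖ * (1 / v) := by
      push_cast; ring
    rw [e4]
    exact add_le_add ih h3

theorem main : S_MN := by
  intro b t hb hbt
  have ht : t ≠ 0 := by
    rintro rfl
    exact hbt (dvd_zero _)
  have hb' : (0 : ℝ) < b := by positivity
  refine ⟨H t (1 / b), 2 * ‖aa t‖ + 3, ?_, ?_⟩
  · intro h0
    unfold H at h0
    rw [div_eq_zero_iff] at h0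
    rcases h0 with h0 | h0
    · have h1 : g t (1 / b) = 1 := (sub_eq_zero.1 h0).symm
      unfold g at h1
      rw [Complex.exp_eq_one_iff] at h1
      obtain ⟨n, hn⟩ := h1
      unfold aa at hn
      have hpi : (2 * (Real.pi : ℂ) * Complex.I) ≠ 0 := by
        simp [Real.pi_ne_zero]
      have hbc : (b : ℂ) ≠ 0 := by exact_mod_cast hb'.ne'
      have h2 : (2 * (Real.pi : ℂ) * Complex.I) * (-(t : ℂ) / b) =
          (2 * (Real.pi : ℂ) * Complex.I) * n := by
        rw [mul_comm _ (n : ℂ), ← hn]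
        push_cast
        ring
      have h3 := mul_left_cancel₀ hpi h2
      have h4 : -(t : ℂ) = n * b := by
        field_simp at h3
        rw [mul_comm]; exact h3
      have h5 : -t = n * b := by exact_mod_cast h4
      apply hbt
      exact ⟨-n, by linarith⟩
    · exact aa_ne ht h0
  · intro v m z₀ hv hz hzv h1 h2
    have hv' : (0 : ℝ) < v := by exact_mod_cast hv
    have hb2 : (2 : ℝ) ≤ b := by exact_mod_cast hb
    have h1' : (v : ℝ) - b < b * m := by exact_mod_cast h1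
    have h2' : (b : ℝ) * m < v + b := by exact_mod_cast h2
    have hv1 : (1 : ℝ) ≤ v := by exact_mod_cast hv
    have hm : (m : ℝ) / v ≤ 2 := by
      rw [div_le_iff₀ hv']
      have : (b : ℝ) * m < b * (2 * v) := by
        have : (v : ℝ) + b ≤ b * (2 * v) := by nlinarith
        linarith
      exact (lt_of_mul_lt_mul_left this hb'.le).le
    have e : ∑ k ∈ Finset.range m, ee (-(t * (z₀ + k / v))) =
        ∑ k ∈ Finset.range m, g t (z₀ + k / v) :=
      Finset.sum_congr rfl fun k _ => ee_eq t _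
    rw [e]
    have hr := riemann ht v hv z₀ m
    have hH0 : H t 0 = 0 := by unfold H g; simp
    have hA : ‖(v : ℂ) * (H t (z₀ + m / v) - H t (1 / b))‖ ≤ 2 := by
      rw [norm_mul]
      have hvn : ‖(v : ℂ)‖ = v := by simp
      rw [hvn]
      refine (mul_le_mul_of_nonneg_left (H_lip ht _ _) hv'.le).trans ?_
      rw [← abs_of_pos hv', ← abs_mul, abs_of_pos hv']
      have e5 : (v : ℝ) * (z₀ + m / v - 1 / b) = z₀ * v + (b * m - v) / b := by
        field_simp
        ring
      rw [e5, abs_le]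
      have h6 : (b * m - v) / (b : ℝ) ≤ 1 := by rw [div_le_one hb']; linarith
      have h7 : -1 ≤ (b * m - v) / (b : ℝ) := by rw [le_div_iff₀ hb']; linarith
      have h8 : 0 ≤ z₀ * v := by positivity
      constructor <;> linarith
    have hB : ‖(v : ℂ) * H t z₀‖ ≤ 1 := by
      rw [norm_mul]
      have hvn : ‖(v : ℂ)‖ = v := by simp
      rw [hvn]
      have := H_lip ht 0 z₀
      rw [hH0, sub_zero, sub_zero, abs_of_nonneg hz] at this
      nlinarith
    have e6 : ∑ k ∈ Finset.range m, g t (z₀ + k / v) - v * H t (1 / b) =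
        (∑ k ∈ Finset.range m, g t (z₀ + k / v) - v * (H t (z₀ + m / v) - H t z₀)) +
        (v * (H t (z₀ + m / v) - H t (1 / b)) - v * H t z₀) := by ring
    rw [e6]
    have hc : ‖aa t‖ * (m / v) ≤ 2 * ‖aa t‖ := by
      rw [mul_comm]; exact mul_le_mul_of_nonneg_right hm (norm_nonneg _)
    calc _ ≤ ‖∑ k ∈ Finset.range m, g t (z₀ + k / v) - v * (H t (z₀ + m / v) - H t z₀)‖ +
          ‖(v : ℂ) * (H t (z₀ + m / v) - H t (1 / b)) - v * H t z₀‖ := norm_add_le _ _
      _ ≤ ‖aa t‖ * (m / v) + (2 + 1) := by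
          refine add_le_add hr ((norm_sub_le _ _).trans (add_le_add hA hB))
      _ ≤ _ := by linarith

end Pool.Agent.W834.ND.MN
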